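import Pool.Agent.Y229.LP3
import Pool.Agent.W425.SU.Final
import Pool.Agent.Y230.RS.Padic

set_option autoImplicit false
set_option linter.unusedSectionVars false
set_option linter.unusedVariables false

/-! # Sums and products in disjoint variables of all the known classes of ideals -/

namespace Pool.Agent.Y228.AT

open MvPolynomial Pool.Agent.W574.MO Pool.Agent.W574.SM Pool.Agent.W574.LM Pool.Agent.W574.HS
  Pool.Agent.W574.RO Pool.Agent.W574.CN Pool.Agent.W425.SM Pool.Agent.W425.SI Pool.Agent.W425.SU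
  Pool.Agent.H628R4.TZ Pool.Agent.TH192.DT Pool.Agent.Y229
open Pool.Agent.Y230.RS (FromRees topZeta topZeta_le root_of_fromRees)

/-- `AllGlobal A Z`: `A` generates one of the following ideals, and `Z` is its global topological
zeta function: the ideals in the list `Basic`; the ideals with a log resolution all of whose
divisors (at least the numbers `-(k i + 1) / a i`) come from Rees divisors; the ideals
`(f_1, …, f_k)` of `ℂ[x_1, …, x_N]` with very general coefficients at the vertices. -/
inductive AllGlobal : Fam → RatFunc ℂ → Prop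
  /-- the ideals in the list `Basic`, with `PlaneZeta` for the ideals of `ℂ[x, y]` -/
  | basic (A : Fam) (Z : RatFunc ℂ) (h : Basic (fun _ f Z => PlaneZeta f Z) A Z) : AllGlobal A Z
  /-- ideals `(f_j)` with a log resolution with the divisors `E_i`, `i ∈ J`, `a i = ord_{E_i} I`,
  `k i = ord_{E_i} K`, and the Euler characteristics `χ S` of the strata, such that for all `i` with
  `a i > 0` (for which `χ S ≠ 0` for some `S` with `i ∈ S`) the number `-(k i + 1) / a i` comes from a
  Rees divisor -/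
  | rees (σ ι J : Type) [Fintype σ] [DecidableEq σ] [Fintype ι] [Fintype J] [DecidableEq J]
      (f : ι → MvPolynomial σ ℂ) (hf : ∃ j, f j ≠ 0) (a k : J → ℕ) (χ : Finset J → ℤ)
      (h : ∀ i, 0 < a i → (∃ S, χ S ≠ 0 ∧ i ∈ S) → FromRees f (a i) (k i)) :
      AllGlobal ⟨σ, ι, f⟩ (topZeta a k χ)
  /-- ideals `(f_1, …, f_k)`, `f_i = ∑_{π j = i} a_j x ^ (w j) + h_i`, where the exponents of `h_i` are
  in the convex hull of the `w j`, `π j = i`, the coefficients of the `h_i` are in the field `F`, and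
  the `a_j` are algebraically independent over `F`; the zeta function is computed on a toric
  resolution of `∑ y_i f_i` -/
  | generic (r k N : ℕ) (hr : 1 ≤ r) (F : Subfield ℂ) (π : Fin r → Fin k)
      (w : Fin r → Fin N → ℕ) (hw : Function.Injective fun j => (π j, w j))
      (h : Fin k → MvPolynomial (Fin N) F) (hh : ∀ i, ∀ u ∈ (h i).support, HullAt π w i u)
      (a : Fin r → ℂ) (ha : AlgebraicIndependent F a) (R : SmoothFan (k + N))
      (hR : Principal (cay π w) R) :
      AllGlobal ⟨Fin N, Fin k, fun i => gens π w a i + MvPolynomial.map (algebraMap F ℂ) (h i)⟩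
        (topZetaI π w R)

theorem topZeta_pole {J : Type} [Fintype J] [DecidableEq J] (a k : J → ℕ) (χ : Finset J → ℤ)
    (s₀ : ℂ) (hs : (topZeta a k χ).denom.eval s₀ = 0) :
    ∃ S, χ S ≠ 0 ∧ ∃ i ∈ S, 0 < a i ∧ ((k i + 1 : ℕ) : ℂ) + a i * s₀ = 0 := by
  classical
  by_contra hcon
  push Not at hcon
  obtain ⟨Q, P, hQ, hP⟩ := topZeta_le a k χ s₀ 0 fun S hS => by
    rw [Nat.le_zero, Finset.card_eq_zero, Finset.filter_eq_empty_iff]
    rintro i hi ⟨h1, h2⟩
    exact hcon S hS i hi h1 h2
  rw [pow_zero, one_mul] at hP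
  exact hQ (pole_dvd Q P _ hP s₀ hs)

theorem gens_ne {r k N : ℕ} (hr : 1 ≤ r) (F : Subfield ℂ) (π : Fin r → Fin k)
    (w : Fin r → Fin N → ℕ) (hw : Function.Injective fun j => (π j, w j))
    (h : Fin k → MvPolynomial (Fin N) F) (a : Fin r → ℂ) (ha : AlgebraicIndependent F a) :
    ∃ i, gens π w a i + MvPolynomial.map (algebraMap F ℂ) (h i) ≠ 0 := by
  classical
  set j0 : Fin r := ⟨0, by omega⟩ with hj0
  refine ⟨π j0, fun h0 => ?_⟩
  set u : Fin N →₀ ℕ := Finsupp.equivFunOnFinite.symm (w j0) with hu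
  have h1 := congrArg (coeff u) h0
  rw [coeff_add, coeff_zero, coeff_map] at h1
  have h2 : coeff u (gens π w a (π j0)) = a j0 := by
    unfold gens
    rw [coeff_sum, Finset.sum_eq_single j0]
    · rw [coeff_C_mul]
      have h3 : (∏ l, (X l : MvPolynomial (Fin N) ℂ) ^ w j0 l) = monomial u 1 := by
        rw [monomial_eq, Finsupp.prod_fintype _ _ (fun _ => pow_zero _)]
        simp [hu]
      rw [h3, coeff_monomial, if_pos rfl, mul_one]
    · intro j hj hne
      rw [coeff_C_mul]
      have h3 : (∏ l, (X l : MvPolynomial (Fin N) ℂ) ^ w j l) =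
          monomial (Finsupp.equivFunOnFinite.symm (w j)) 1 := by
        rw [monomial_eq, Finsupp.prod_fintype _ _ (fun _ => pow_zero _)]
        simp
      rw [h3, coeff_monomial, if_neg, mul_zero]
      intro h4
      apply hne
      apply hw
      have h5 : w j = w j0 := Finsupp.equivFunOnFinite.symm.injective h4
      have h6 : π j = π j0 := (Finset.mem_filter.1 hj).2
      simp only [h5, h6]
    · intro hj
      exact absurd (by simp) hj
  rw [h2] at h1
  have h3 : aeval a (X j0 + C (coeff u (h (π j0))) : MvPolynomial (Fin r) F) = 0 := by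
    rw [map_add, aeval_X, aeval_C]
    exact h1
  have h4 : (X j0 + C (coeff u (h (π j0))) : MvPolynomial (Fin r) F) = 0 := ha (by rw [h3, map_zero])
  have h5 := congrArg (coeff (Finsupp.single j0 1)) h4
  have h6 : (0 : Fin r →₀ ℕ) ≠ Finsupp.single j0 1 := fun h6 => by
    have := DFunLike.congr_fun h6 j0
    simp at this
  rw [coeff_add, coeff_C, if_neg h6, add_zero, coeff_zero] at h5
  have h7 : coeff (Finsupp.single j0 1) (X j0 : MvPolynomial (Fin r) F) = 1 := by simp
  rw [h7] at h5
  exact one_ne_zero h5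

theorem allGlobal_poles (A : Fam) (Z : RatFunc ℂ) (h : AllGlobal A Z) :
    (∃ j, A.f j ≠ 0) ∧ ∀ s₀ : ℂ, Z.denom.eval s₀ = 0 → FoG A s₀ := by
  classical
  cases h with
  | basic _ _ h =>
    exact (basic_poles FoG (fun A d hd α hα => hα) _
      (fun r f Z hf hZ s₀ hs b hb => plane_main f b hb Z hZ s₀ hs) A Z h).2
  | rees σ ι J f hf a k χ h =>
    refine ⟨hf, fun s₀ hs b hb => ?_⟩
    obtain ⟨S, hS, i, hi, h1, h2⟩ := topZeta_pole a k χ s₀ hs
    exact root_of_fromRees f b hb (a i) (k i) (h i h1 ⟨S, hS, hi⟩) s₀ h1 h2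
  | generic r k N hr F π w hw h hh a ha R hR =>
    refine ⟨gens_ne hr F π w hw h a ha, fun s₀ hs b hb => ?_⟩
    obtain ⟨P, hP⟩ := finalIdealC hr π w a hw ha h hh
      (fun i => gens π w a i + MvPolynomial.map (algebraMap F ℂ) (h i)) (fun _ => 1) (fun _ => 1)
      (fun _ => one_ne_zero) (fun _ => one_ne_zero) (fun i => by simp) R hR b hb
    exact pole_dvd b P _ hP s₀ hs

/-- **The strong monodromy conjecture for ideals: sums and products in disjoint variables.** -/
theorem all_ideal (A : Fam) (Z : RatFunc ℂ) (h : TopSP AllGlobal A Z) (b : Polynomial ℂ)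
    (hb : IsFunctionalEq A.f b) (s₀ : ℂ) (hs : Z.denom.eval s₀ = 0) : b.eval s₀ = 0 := by
  obtain ⟨-, h1⟩ := top_closure FoG isForcing_global ⊥ AllGlobal (fun A Z h => by
    obtain ⟨h1, h2⟩ := allGlobal_poles A Z h
    exact ⟨h1, fun s hs => ⟨0, AddSubmonoid.zero_mem _, by rw [sub_zero]; exact h2 s hs⟩⟩) A Z h
  obtain ⟨u, hu, h2⟩ := h1 s₀ hs
  rw [AddSubmonoid.mem_bot] at hu
  rw [hu, sub_zero] at h2
  exact h2 b hb

section

variable {σ T : Type} [Fintype T] [DecidableEq T] {κ : T → Type} [∀ t, Fintype (κ t)]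

/-- **Products of powers of forms: the strong monodromy conjecture.** -/
theorem all_global_pow [Finite σ] (a : T → ℕ) (ha : ∀ t, 1 ≤ a t) [Nonempty T]
    (f : (t : T) → κ t → MvPolynomial σ ℂ) (Z' : RatFunc ℂ) (h : TopSP AllGlobal (powFam a f) Z')
    (b : Polynomial ℂ) (hb : Pool.Agent.H628R4.TP.IsBFunction (powProd a f) b)
    (s₀ : ℂ) (hs : (Z' * ∏ t, fac (a t) 1).denom.eval s₀ = 0) : b.eval s₀ = 0 := by
  classical
  have : Fintype σ := Fintype.ofFinite σ
  obtain ⟨hne, -⟩ := top_closure FoG isForcing_global ⊥ AllGlobal (fun A Z h => by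
    obtain ⟨h1, h2⟩ := allGlobal_poles A Z h
    exact ⟨h1, fun s hs => ⟨0, AddSubmonoid.zero_mem _, by rw [sub_zero]; exact h2 s hs⟩⟩) _ Z' h
  have hf := powFam_ne a ha f hne
  rcases prod_fac_pole a ha Z' s₀ hs with h2 | ⟨t, rfl⟩
  · refine all_ideal _ Z' h b ?_ s₀ h2
    obtain ⟨P, hP⟩ := hb
    obtain ⟨t0⟩ := (inferInstance : Nonempty T)
    exact fe_of_locEq (hat 1 0) (by rw [hat_one, if_pos rfl]) _ b
      (locEq_of_powProd a f t0 (by have := ha t0; omega) b 1 P fun s => by
        rw [one_mul]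
        exact hP s)
  · have h2 := (powData_global a f hf b hb).strict t 0 (by have := ha t; omega)
    simpa using h2

end

end Pool.Agent.Y228.AT
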